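import Mathlib

set_option autoImplicit false

open Finset

namespace Pool.Agent.H463R2.DT

/-! Affine forms and decision trees. -/

/-- An affine form in real variables indexed by `ι`. -/
structure Aff (ι : Type) where
  coef : ι → ℝ
  const : ℝ

/-- The value of an affine form at a vector of natural numbers. -/
noncomputable def Aff.eval {ι : Type} [Fintype ι] (q : Aff ι) (x : ι → ℕ) : ℝ :=
  ∑ i, q.coef i * (x i : ℝ) + q.const

open Classical in
/-- The variables that occur in an affine form. -/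
noncomputable def Aff.vars {ι : Type} [Fintype ι] (q : Aff ι) : Finset ι :=
  univ.filter fun i => q.coef i ≠ 0

/-- Decision trees: every inner node compares an affine form with `0` (three outcomes). -/
inductive Tree (ι O : Type) : Type
  | leaf (o : O) : Tree ι O
  | node (q : Aff ι) (l e g : Tree ι O) : Tree ι O

/-- The output of a decision tree. -/
noncomputable def Tree.run {ι O : Type} [Fintype ι] : Tree ι O → (ι → ℕ) → O
  | .leaf o, _ => o
  | .node q l e g, x =>
      if q.eval x < 0 then l.run x else if q.eval x = 0 then e.run x else g.run x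

/-- The number of tests made on the input `x`. -/
noncomputable def Tree.cost {ι O : Type} [Fintype ι] : Tree ι O → (ι → ℕ) → ℕ
  | .leaf _, _ => 0
  | .node q l e g, x =>
      1 + (if q.eval x < 0 then l.cost x else if q.eval x = 0 then e.cost x else g.cost x)

/-- All tests of the tree satisfy `P`. -/
def Tree.All {ι O : Type} (P : Aff ι → Prop) : Tree ι O → Prop
  | .leaf _ => True
  | .node q l e g => P q ∧ l.All P ∧ e.All P ∧ g.All P

/-! Directed graphs, walks and distances. -/

/-- `Walk tail head s t w`: the list `w` of arcs is a walk from `s` to `t`. -/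
inductive Walk {V ι : Type} (tail head : ι → V) : V → V → List ι → Prop
  | nil (v : V) : Walk tail head v v []
  | cons (a : ι) (t : V) (w : List ι) : Walk tail head (head a) t w →
      Walk tail head (tail a) t (a :: w)

/-- The weight of a list of arcs. -/
def weight {ι : Type} (x : ι → ℕ) (w : List ι) : ℕ := (w.map x).sum

/-- `d` is the distance from `s` to `t`. -/
def IsDist {V ι : Type} (tail head : ι → V) (x : ι → ℕ) (s t : V) (d : ℕ) : Prop :=
  (∃ w, Walk tail head s t w ∧ weight x w = d) ∧ ∀ w, Walk tail head s t w → d ≤ weight x w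

/-- The outcome `o` (an affine form in the arc weights for every pair of vertices) gives all
distances at the weights `x`: for all `s`, `t` such that `t` can be reached from `s`. -/
def APSP {V ι : Type} [Fintype ι] (tail head : ι → V) (o : V → V → Aff ι) (x : ι → ℕ) : Prop :=
  ∀ s t d, IsDist tail head x s t d → (o s t).eval x = d

/-- The vertices of the three-layer digraph: `n` sources, `n` sinks and `K` middle vertices. -/
abbrev Vert (n K : ℕ) : Type := (Fin n ⊕ Fin n) ⊕ Fin K

/-- The arcs: `(inl r, c)` from the source `r` to the middle vertex `c`, and `(inr s, c)` from the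
middle vertex `c` to the sink `s`. -/
abbrev Arc (n K : ℕ) : Type := (Fin n ⊕ Fin n) × Fin K

/-- The tail of an arc. -/
def tail {n K : ℕ} : Arc n K → Vert n K
  | (Sum.inl r, _) => Sum.inl (Sum.inl r)
  | (Sum.inr _, c) => Sum.inr c

/-- The head of an arc. -/
def head {n K : ℕ} : Arc n K → Vert n K
  | (Sum.inl _, c) => Sum.inr c
  | (Sum.inr s, _) => Sum.inl (Sum.inr s)

/-- Decision trees for APSP on the three-layer digraph. -/
abbrev ATree (n K : ℕ) : Type := Tree (Arc n K) (Vert n K → Vert n K → Aff (Arc n K))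

/-! The construction. -/

/-- Integer coordinates of the sources / sinks (`i`, `u1`, `u2`, `u3`) and of the middle vertices
(`l`, `k`). -/
structure Code (n K f : ℕ) where
  i : Fin n → ℕ
  u1 : Fin n → ℕ
  u2 : Fin n → ℕ
  u3 : Fin n → ℕ
  l : Fin K → ℕ
  k : Fin K → ℕ
  inj : ∀ r s, i r = i s → u1 r = u1 s → u2 r = u2 s → u3 r = u3 s → r = s
  injk : ∀ c d, l c = l d → k c = k d → c = d
  kpos : ∀ c, 1 ≤ k c
  kle : ∀ c, k c ≤ f
  i_lt : ∀ r, i r < n
  u1_lt : ∀ r, u1 r < n
  u2_lt : ∀ r, u2 r < n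
  u3_lt : ∀ r, u3 r < n
  l_lt : ∀ c, l c < K

variable {n K f : ℕ}

/-- The block index of the list `g` at the column `c`. -/
def Code.I (C : Code n K f) : Fin n ⊕ Fin n → Fin K → ℕ
  | Sum.inl r, _ => C.i r
  | Sum.inr s, c => C.i s + C.l c

/-- The sign of a list. -/
def sg {n : ℕ} : Fin n ⊕ Fin n → ℤ
  | Sum.inl _ => 1
  | Sum.inr _ => -1

/-- The features: a polynomial, its derivative and half of its second derivative. -/
def Code.ph (C : Code n K f) : Fin 3 → Fin n ⊕ Fin n → Fin K → ℤ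
  | 0, Sum.inl r, c => (C.k c : ℤ) ^ 4 + C.u3 r * (C.k c : ℤ) ^ 3 - C.u2 r * (C.k c : ℤ) ^ 2
      + C.u1 r * C.k c
  | 1, Sum.inl r, c => 4 * (C.k c : ℤ) ^ 3 + 3 * C.u3 r * (C.k c : ℤ) ^ 2 - 2 * C.u2 r * C.k c
      + C.u1 r
  | 2, Sum.inl r, c => 6 * (C.k c : ℤ) ^ 2 + 3 * C.u3 r * C.k c - C.u2 r
  | 0, Sum.inr s, c => C.u3 s * (C.k c : ℤ) ^ 3 - C.u2 s * (C.k c : ℤ) ^ 2 + C.u1 s * C.k c
  | 1, Sum.inr s, c => 3 * C.u3 s * (C.k c : ℤ) ^ 2 - 2 * C.u2 s * C.k c + C.u1 s
  | 2, Sum.inr s, c => 3 * C.u3 s * C.k c - C.u2 s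

/-- The generic parameters. -/
abbrev Par (n K : ℕ) : Type :=
  (Fin n ⊕ Fin n) ⊕ ((Fin K × Fin (n + K)) ⊕ (Fin 3 × Fin (n + K) × Fin K))

/-- The derivative of the base point with respect to a parameter. -/
def Code.basis (C : Code n K f) : Par n K → Arc n K → ℤ
  | Sum.inl g, v => if v.1 = g then 1 else 0
  | Sum.inr (Sum.inl (c, i)), v => if v.2 = c ∧ C.I v.1 v.2 = (i : ℕ) then sg v.1 else 0
  | Sum.inr (Sum.inr (r, i, l)), v =>
      if C.l v.2 = (l : ℕ) ∧ C.I v.1 v.2 = (i : ℕ) then sg v.1 * C.ph r v.1 v.2 else 0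

/-- A quadruple source, sink, two middle vertices. -/
abbrev Quad (n K : ℕ) : Type := (Fin n × Fin n) × (Fin K × Fin K)

/-- The ties: `e = ((r, s), (c, d))`. -/
def Code.Tie (C : Code n K f) (e : Quad n K) : Prop :=
  e.2.1 < e.2.2 ∧ C.l e.2.1 = C.l e.2.2 ∧ C.i e.1.1 = C.i e.1.2 + C.l e.2.1 ∧
    C.u1 e.1.2 = C.u1 e.1.1 + 2 * (C.k e.2.1 + C.k e.2.2) * (C.k e.2.1 * C.k e.2.2) ∧
    C.u2 e.1.2 = C.u2 e.1.1 + (C.k e.2.1 + C.k e.2.2) ^ 2 + 2 * (C.k e.2.1 * C.k e.2.2) ∧
    C.u3 e.1.2 = C.u3 e.1.1 + 2 * (C.k e.2.1 + C.k e.2.2)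

open Classical in
/-- The finite set of ties. -/
noncomputable def Code.ties (C : Code n K f) : Finset (Quad n K) := univ.filter C.Tie

/-- The coefficients of the comparison of the two paths of a quadruple. -/
def dco (e : Quad n K) (v : Arc n K) : ℤ :=
  if v = (Sum.inl e.1.1, e.2.1) ∨ v = (Sum.inr e.1.2, e.2.1) then 1
  else if v = (Sum.inl e.1.1, e.2.2) ∨ v = (Sum.inr e.1.2, e.2.2) then -1 else 0

/-- The base point, with constants `A`, `B`, `T` and generic parameters `y`. -/
def Code.x0 (C : Code n K f) (A B T : ℤ) (y : Par n K → ℤ) (v : Arc n K) : ℤ :=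
  A + B * (match v with
    | (Sum.inl r, c) => (C.l c : ℤ) ^ 2 - 2 * C.l c * C.i r
    | (Sum.inr s, c) => 2 * C.l c * C.i s)
  + T * (sg v.1 * C.ph 0 v.1 v.2) + ∑ p, y p * C.basis p v

end Pool.Agent.H463R2.DT
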