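import Pool.Agent.H463R2.DT.Defs

set_option autoImplicit false

open Finset

namespace Pool.Agent.H463R2.DT

variable {n K f : ℕ}

/-! T1: classification of the forms with at most 5 variables that vanish on all parameters. -/
theorem T1 (C : Code n K f) (q : Arc n K → ℝ)
    (hcard : (univ.filter (fun v => q v ≠ 0)).card ≤ 5)
    (h : ∀ p : Par n K, ∑ v, q v * (C.basis p v : ℝ) = 0) :
    (∀ v, q v = 0) ∨ ∃ e ∈ C.ties, ∃ c : ℝ, c ≠ 0 ∧ ∀ v, q v = c * (dco e v : ℝ) := by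
  sorry

/-! T2: ties and gaps at the base point. -/
theorem T2a (C : Code n K f) (A B T : ℤ) (y : Par n K → ℤ) (e : Quad n K) (he : C.Tie e) :
    C.x0 A B T y (Sum.inl e.1.1, e.2.1) + C.x0 A B T y (Sum.inr e.1.2, e.2.1)
      = C.x0 A B T y (Sum.inl e.1.1, e.2.2) + C.x0 A B T y (Sum.inr e.1.2, e.2.2) := by
  sorry

theorem T2b (C : Code n K f) (A B T G Y : ℤ) (y : Par n K → ℤ)
    (hy : ∀ p, 0 ≤ y p ∧ y p ≤ Y) (hG : 0 ≤ G) (hT : G + 10 * f ^ 3 * Y ≤ T)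
    (hB : G + 4 * (Y + (T + 3 * Y) * (10 * n * f ^ 4)) ≤ B)
    (e : Quad n K) (he : C.Tie e) (c : Fin K) (hc1 : c ≠ e.2.1) (hc2 : c ≠ e.2.2) :
    C.x0 A B T y (Sum.inl e.1.1, e.2.1) + C.x0 A B T y (Sum.inr e.1.2, e.2.1) + G
      ≤ C.x0 A B T y (Sum.inl e.1.1, c) + C.x0 A B T y (Sum.inr e.1.2, c) := by
  sorry

theorem T2c (C : Code n K f) (A B T Y : ℤ) (y : Par n K → ℤ)
    (hy : ∀ p, 0 ≤ y p ∧ y p ≤ Y) (hT : 0 ≤ T) (hK : K ≤ n)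
    (hB : 4 * (Y + (T + 3 * Y) * (10 * n * f ^ 4)) ≤ B) (v : Arc n K) :
    A - 3 * n ^ 2 * B ≤ C.x0 A B T y v ∧ C.x0 A B T y v ≤ A + 3 * n ^ 2 * B := by
  sorry

/-! T3: a good choice of the parameters, by counting. -/
theorem T3 {P Q : Type} [Fintype P] [DecidableEq P] (S : Finset Q) (a : Q → ℝ) (b : Q → P → ℝ)
    (Z : Q → ℝ) (hZ : ∀ q ∈ S, 0 ≤ Z q) (Y : ℕ) (hb : ∀ q ∈ S, ∃ p, 1 ≤ |b q p|)
    (hY : ∑ q ∈ S, (2 * Z q + 1) < (Y : ℝ)) :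
    ∃ y : P → ℤ, (∀ p, 0 ≤ y p ∧ y p ≤ Y) ∧ ∀ q ∈ S, Z q < |a q + ∑ p, b q p * (y p : ℝ)| := by
  sorry

/-! T5: distances in the three-layer digraph. -/
theorem T5 (x : Arc n K → ℕ) (r s : Fin n) (m : ℕ)
    (h1 : ∃ c, x (Sum.inl r, c) + x (Sum.inr s, c) = m)
    (h2 : ∀ c, m ≤ x (Sum.inl r, c) + x (Sum.inr s, c)) :
    IsDist tail head x (Sum.inl (Sum.inl r)) (Sum.inl (Sum.inr s)) m := by
  sorry

/-! T6: coordinates with many ties. -/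
theorem T6 (hf : 2 ≤ f) (hfK : f ≤ K) (hn : 3072 * K * f ^ 5 ≤ n) :
    ∃ C : Code n K f, n * K * f ≤ 128 * C.ties.card := by
  sorry

end Pool.Agent.H463R2.DT
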