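import Pool.Agent.H463R2.DT.Defs

set_option autoImplicit false

/-! T1 (helper231): classification of the forms with at most 5 variables that vanish on all
parameters. -/

open Finset

namespace Pool.Agent.H463R2.DT

variable {n K f : ℕ}

theorem t1_I_lt (C : Code n K f) (g : Fin n ⊕ Fin n) (c : Fin K) : C.I g c < n + K := by
  cases g with
  | inl r =>
    have := C.i_lt r
    show C.i r < n + K
    omega
  | inr s =>
    have := C.i_lt s
    have := C.l_lt c
    show C.i s + C.l c < n + K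
    omega

theorem t1_sg_sq (g : Fin n ⊕ Fin n) : (sg g : ℝ) * sg g = 1 := by
  cases g <;> simp [sg]

theorem t1_sg_ne (g : Fin n ⊕ Fin n) : (sg g : ℝ) ≠ 0 := by
  intro h
  have := t1_sg_sq g
  rw [h] at this
  norm_num at this

/-- every row has at least two variables -/
theorem t1_row (C : Code n K f) (q : Arc n K → ℝ)
    (h : ∀ p : Par n K, ∑ v, q v * (C.basis p v : ℝ) = 0) (g : Fin n ⊕ Fin n) (c : Fin K)
    (hq : q (g, c) ≠ 0) : ∃ c', c' ≠ c ∧ q (g, c') ≠ 0 := by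
  by_contra hcon
  push Not at hcon
  have h1 := h (Sum.inl g)
  rw [Finset.sum_eq_single (g, c)] at h1
  · simp only [Code.basis, if_true, Int.cast_one, mul_one] at h1
    exact hq h1
  · rintro ⟨g', c'⟩ _ hne
    by_cases hg : g' = g
    · subst hg
      have : c' ≠ c := fun e => hne (by rw [e])
      rw [hcon c' this, zero_mul]
    · simp [Code.basis, hg]
  · intro h2
    exact absurd (Finset.mem_univ _) h2

/-- every block of a column has at least two variables -/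
theorem t1_col (C : Code n K f) (q : Arc n K → ℝ)
    (h : ∀ p : Par n K, ∑ v, q v * (C.basis p v : ℝ) = 0) (g : Fin n ⊕ Fin n) (c : Fin K)
    (hq : q (g, c) ≠ 0) : ∃ g', g' ≠ g ∧ C.I g' c = C.I g c ∧ q (g', c) ≠ 0 := by
  by_contra hcon
  push Not at hcon
  have h1 := h (Sum.inr (Sum.inl (c, ⟨C.I g c, t1_I_lt C g c⟩)))
  rw [Finset.sum_eq_single (g, c)] at h1
  · simp only [Code.basis, and_self, if_true] at h1
    rcases mul_eq_zero.mp h1 with h2 | h2
    · exact hq h2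
    · exact t1_sg_ne g h2
  · rintro ⟨g', c'⟩ _ hne
    by_cases hc : c' = c ∧ C.I g' c' = C.I g c
    · obtain ⟨rfl, h3⟩ := hc
      have : g' ≠ g := fun e => hne (by rw [e])
      rw [hcon g' this h3, zero_mul]
    · simp [Code.basis, hc]
  · intro h2
    exact absurd (Finset.mem_univ _) h2

/-- sums over a rectangle -/
theorem t1_sum (q : Arc n K → ℝ) {g1 g2 : Fin n ⊕ Fin n} {c1 c2 : Fin K} (hg : g1 ≠ g2)
    (hc : c1 ≠ c2) (hsup : ∀ v, q v ≠ 0 → (v.1 = g1 ∨ v.1 = g2) ∧ (v.2 = c1 ∨ v.2 = c2))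
    (F : Arc n K → ℝ) : ∑ v, q v * F v = q (g1, c1) * F (g1, c1) + q (g1, c2) * F (g1, c2) +
      q (g2, c1) * F (g2, c1) + q (g2, c2) * F (g2, c2) := by
  have h1 : ∑ v ∈ ({(g1, c1), (g1, c2), (g2, c1), (g2, c2)} : Finset (Arc n K)), q v * F v =
      ∑ v, q v * F v := by
    apply Finset.sum_subset (Finset.subset_univ _)
    rintro ⟨g, c⟩ _ hv
    have h2 : q (g, c) = 0 := by
      by_contra h3
      obtain ⟨h4, h5⟩ := hsup _ h3
      simp only at h4 h5
      apply hv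
      rcases h4 with rfl | rfl <;> rcases h5 with rfl | rfl <;> simp
    rw [h2, zero_mul]
  rw [← h1, Finset.sum_insert, Finset.sum_insert, Finset.sum_insert, Finset.sum_singleton]
  · ring
  · simp [hc]
  · simp [hg]
  · simp [hg, hc]

/-- the values of the form on a rectangle -/
theorem t1_vals (C : Code n K f) (q : Arc n K → ℝ)
    (h : ∀ p : Par n K, ∑ v, q v * (C.basis p v : ℝ) = 0) {g1 g2 : Fin n ⊕ Fin n}
    {c1 c2 : Fin K} (hg : g1 ≠ g2)
    (hc : c1 ≠ c2) (hsup : ∀ v, q v ≠ 0 → (v.1 = g1 ∨ v.1 = g2) ∧ (v.2 = c1 ∨ v.2 = c2))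
    (hI : C.I g2 c1 = C.I g1 c1) :
    q (g1, c2) = - q (g1, c1) ∧ q (g2, c1) = - (sg g1 * sg g2 * q (g1, c1)) ∧
      q (g2, c2) = sg g1 * sg g2 * q (g1, c1) := by
  have e1 := h (Sum.inl g1)
  have e2 := h (Sum.inl g2)
  have e3 := h (Sum.inr (Sum.inl (c1, ⟨C.I g1 c1, t1_I_lt C g1 c1⟩)))
  rw [t1_sum q hg hc hsup] at e1 e2 e3
  simp only [Code.basis, if_true, Int.cast_one, mul_one, if_neg hg, if_neg hg.symm, Int.cast_zero,
    mul_zero, add_zero, zero_add, and_self, hI, hc.symm, false_and, if_false] at e1 e2 e3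
  have h1 := t1_sg_sq g1
  have h2 := t1_sg_sq g2
  refine ⟨by linarith, ?_, ?_⟩
  · linear_combination (sg g2 : ℝ) * e3 - q (g2, c1) * h2
  · linear_combination e2 - (sg g2 : ℝ) * e3 + q (g2, c1) * h2

/-- the equations of the third kind -/
theorem t1_third (C : Code n K f) (q : Arc n K → ℝ)
    (h : ∀ p : Par n K, ∑ v, q v * (C.basis p v : ℝ) = 0) {g1 g2 : Fin n ⊕ Fin n}
    {c1 c2 : Fin K} (hg : g1 ≠ g2)
    (hc : c1 ≠ c2) (hsup : ∀ v, q v ≠ 0 → (v.1 = g1 ∨ v.1 = g2) ∧ (v.2 = c1 ∨ v.2 = c2))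
    (hI : C.I g2 c1 = C.I g1 c1) (hq : q (g1, c1) ≠ 0) (j : Fin 3) :
    (C.l c1 ≠ C.l c2 → C.ph j g1 c1 - C.ph j g2 c1 = 0) ∧
    (C.l c1 = C.l c2 → C.I g1 c2 = C.I g1 c1 → C.I g2 c2 = C.I g2 c1 →
      C.ph j g1 c1 - C.ph j g2 c1 = C.ph j g1 c2 - C.ph j g2 c2) := by
  have e := h (Sum.inr (Sum.inr (j, ⟨C.I g1 c1, t1_I_lt C g1 c1⟩, ⟨C.l c1, C.l_lt c1⟩)))
  obtain ⟨v1, v2, v3⟩ := t1_vals C q h hg hc hsup hI
  rw [t1_sum q hg hc hsup, v1, v2, v3] at e
  have h1 := t1_sg_sq g1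
  have h2 := t1_sg_sq g2
  constructor
  · intro hl
    simp only [Code.basis, hI, and_self, if_true, hl.symm, false_and, if_false, Int.cast_zero,
      mul_zero, add_zero] at e
    push_cast at e
    have h3 : (sg g1 : ℝ) * q (g1, c1) * ((C.ph j g1 c1 : ℝ) - C.ph j g2 c1) = 0 := by
      linear_combination e + sg g1 * q (g1, c1) * (C.ph j g2 c1 : ℝ) * h2
    have h4 : ((C.ph j g1 c1 : ℝ) - C.ph j g2 c1) = 0 := by
      rcases mul_eq_zero.mp h3 with h5 | h5
      · rcases mul_eq_zero.mp h5 with h6 | h6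
        · exact absurd h6 (t1_sg_ne g1)
        · exact absurd h6 hq
      · exact h5
    exact_mod_cast h4
  · intro hl hI1 hI2
    rw [hI] at hI2
    simp only [Code.basis, hI, hI1, hI2, ← hl, and_self, if_true] at e
    push_cast at e
    have h3 : (sg g1 : ℝ) * q (g1, c1) * (((C.ph j g1 c1 : ℝ) - C.ph j g2 c1) -
        ((C.ph j g1 c2 : ℝ) - C.ph j g2 c2)) = 0 := by
      linear_combination e + sg g1 * q (g1, c1) * ((C.ph j g2 c1 : ℝ) - C.ph j g2 c2) * h2
    have h4 : (((C.ph j g1 c1 : ℝ) - C.ph j g2 c1) - ((C.ph j g1 c2 : ℝ) - C.ph j g2 c2)) = 0 := by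
      rcases mul_eq_zero.mp h3 with h5 | h5
      · rcases mul_eq_zero.mp h5 with h6 | h6
        · exact absurd h6 (t1_sg_ne g1)
        · exact absurd h6 hq
      · exact h5
    have h5 : (((C.ph j g1 c1 - C.ph j g2 c1 : ℤ)) : ℝ) = ((C.ph j g1 c2 - C.ph j g2 c2 : ℤ) : ℝ) := by
      push_cast
      linarith
    exact_mod_cast h5

/-- two lists on the same side are equal -/
theorem t1_core (C : Code n K f) (x y : Fin n) (hxy : x ≠ y) (hi : C.i x = C.i y) (c1 c2 : Fin K)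
    (hc : c1 ≠ c2) (Δ : Fin 3 → Fin K → ℤ)
    (h0 : ∀ c, Δ 0 c = ((C.u3 x : ℤ) - C.u3 y) * (C.k c : ℤ) ^ 3 -
      ((C.u2 x : ℤ) - C.u2 y) * (C.k c : ℤ) ^ 2 + ((C.u1 x : ℤ) - C.u1 y) * C.k c)
    (h1 : ∀ c, Δ 1 c = 3 * ((C.u3 x : ℤ) - C.u3 y) * (C.k c : ℤ) ^ 2 -
      2 * ((C.u2 x : ℤ) - C.u2 y) * C.k c + ((C.u1 x : ℤ) - C.u1 y))
    (h2 : ∀ c, Δ 2 c = 3 * ((C.u3 x : ℤ) - C.u3 y) * C.k c - ((C.u2 x : ℤ) - C.u2 y))
    (hE : C.l c1 ≠ C.l c2 → ∀ j, Δ j c1 = 0) (hE' : C.l c1 = C.l c2 → ∀ j, Δ j c1 = Δ j c2) :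
    False := by
  obtain ⟨a3, ha3⟩ : ∃ a3, a3 = (C.u3 x : ℤ) - C.u3 y := ⟨_, rfl⟩
  obtain ⟨a2, ha2⟩ : ∃ a2, a2 = (C.u2 x : ℤ) - C.u2 y := ⟨_, rfl⟩
  obtain ⟨a1, ha1⟩ : ∃ a1, a1 = (C.u1 x : ℤ) - C.u1 y := ⟨_, rfl⟩
  simp only [← ha3, ← ha2, ← ha1] at h0 h1 h2
  have hfin : a3 = 0 ∧ a2 = 0 ∧ a1 = 0 := by
    by_cases hl : C.l c1 = C.l c2
    · have hk : (C.k c1 : ℤ) - C.k c2 ≠ 0 := by
        intro h
        apply hc
        apply C.injk _ _ hl
        omega
      have E0 := hE' hl 0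
      have E1 := hE' hl 1
      have E2 := hE' hl 2
      rw [h0, h0] at E0
      rw [h1, h1] at E1
      rw [h2, h2] at E2
      have b3 : a3 = 0 := by
        have : (3 * a3) * ((C.k c1 : ℤ) - C.k c2) = 0 := by linear_combination E2
        rcases mul_eq_zero.mp this with h | h
        · omega
        · exact absurd h hk
      rw [b3] at E0 E1
      have b2 : a2 = 0 := by
        have : (2 * a2) * ((C.k c1 : ℤ) - C.k c2) = 0 := by linear_combination -E1
        rcases mul_eq_zero.mp this with h | h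
        · omega
        · exact absurd h hk
      rw [b2] at E0
      have b1 : a1 = 0 := by
        have : a1 * ((C.k c1 : ℤ) - C.k c2) = 0 := by linear_combination E0
        rcases mul_eq_zero.mp this with h | h
        · exact h
        · exact absurd h hk
      exact ⟨b3, b2, b1⟩
    · have hk : (C.k c1 : ℤ) ≠ 0 := by
        have := C.kpos c1
        omega
      have E0 := hE hl 0
      have E1 := hE hl 1
      have E2 := hE hl 2
      rw [h0] at E0
      rw [h1] at E1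
      rw [h2] at E2
      have b3 : a3 = 0 := by
        have : a3 * (C.k c1 : ℤ) ^ 3 = 0 := by
          linear_combination E0 - (C.k c1 : ℤ) * E1 + (C.k c1 : ℤ) ^ 2 * E2
        rcases mul_eq_zero.mp this with h | h
        · exact h
        · exact absurd h (pow_ne_zero 3 hk)
      have b2 : a2 = 0 := by
        rw [b3] at E2
        linarith
      have b1 : a1 = 0 := by
        rw [b3, b2] at E1
        linarith
      exact ⟨b3, b2, b1⟩
  obtain ⟨b3, b2, b1⟩ := hfin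
  apply hxy
  apply C.inj _ _ hi <;> omega

/-- the case of opposite sides -/
theorem t1_opp (C : Code n K f) (q : Arc n K → ℝ)
    (h : ∀ p : Par n K, ∑ v, q v * (C.basis p v : ℝ) = 0) {r s : Fin n} {c1 c2 : Fin K}
    (hc : c1 < c2)
    (hsup : ∀ v, q v ≠ 0 → (v.1 = Sum.inl r ∨ v.1 = Sum.inr s) ∧ (v.2 = c1 ∨ v.2 = c2))
    (hI1 : C.i s + C.l c1 = C.i r) (hI2 : C.i s + C.l c2 = C.i r)
    (hq : q (Sum.inl r, c1) ≠ 0) :
    ∃ e ∈ C.ties, ∃ c : ℝ, c ≠ 0 ∧ ∀ v, q v = c * (dco e v : ℝ) := by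
  have hg : (Sum.inl r : Fin n ⊕ Fin n) ≠ Sum.inr s := by simp
  have hl : C.l c1 = C.l c2 := by omega
  have hk : (C.k c1 : ℤ) - C.k c2 ≠ 0 := by
    intro h
    apply hc.ne
    apply C.injk _ _ hl
    omega
  have h3 := fun j => (t1_third C q h hg hc.ne hsup hI1 hq j).2 hl rfl (by
    show C.i s + C.l c2 = C.i s + C.l c1
    omega)
  obtain ⟨v1, v2, v3⟩ := t1_vals C q h hg hc.ne hsup hI1
  have E0 := h3 0
  have E1 := h3 1
  have E2 := h3 2
  simp only [Code.ph] at E0 E1 E2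
  obtain ⟨a3, ha3⟩ : ∃ a3, a3 = (C.u3 r : ℤ) - C.u3 s := ⟨_, rfl⟩
  obtain ⟨a2, ha2⟩ : ∃ a2, a2 = (C.u2 r : ℤ) - C.u2 s := ⟨_, rfl⟩
  obtain ⟨a1, ha1⟩ : ∃ a1, a1 = (C.u1 r : ℤ) - C.u1 s := ⟨_, rfl⟩
  obtain ⟨k1, hk1⟩ : ∃ k1, k1 = (C.k c1 : ℤ) := ⟨_, rfl⟩
  obtain ⟨k2, hk2⟩ : ∃ k2, k2 = (C.k c2 : ℤ) := ⟨_, rfl⟩
  rw [← hk1, ← hk2] at E0 E1 E2 hk
  have b3 : a3 = - 2 * (k1 + k2) := by
    have : (3 * a3 + 6 * (k1 + k2)) * (k1 - k2) = 0 := by
      rw [ha3]
      linear_combination E2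
    rcases mul_eq_zero.mp this with h | h
    · omega
    · exact absurd h hk
  have b2 : a2 = - ((k1 + k2) ^ 2 + 2 * (k1 * k2)) := by
    have : (2 * (a2 + ((k1 + k2) ^ 2 + 2 * (k1 * k2)))) * (k1 - k2) = 0 := by
      have e : 3 * a3 * (k1 ^ 2 - k2 ^ 2) - 2 * a2 * (k1 - k2) + 4 * (k1 ^ 3 - k2 ^ 3) = 0 := by
        rw [ha3, ha2]
        linear_combination E1
      rw [b3] at e
      linear_combination -e
    rcases mul_eq_zero.mp this with h | h
    · linarith
    · exact absurd h hk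
  have b1 : a1 = - (2 * (k1 + k2) * (k1 * k2)) := by
    have : (a1 + (2 * (k1 + k2) * (k1 * k2))) * (k1 - k2) = 0 := by
      have e : k1 ^ 4 - k2 ^ 4 + a3 * (k1 ^ 3 - k2 ^ 3) - a2 * (k1 ^ 2 - k2 ^ 2) +
          a1 * (k1 - k2) = 0 := by
        rw [ha3, ha2, ha1]
        linear_combination E0
      rw [b3, b2] at e
      linear_combination e
    rcases mul_eq_zero.mp this with h | h
    · linarith
    · exact absurd h hk
  refine ⟨((r, s), (c1, c2)), ?_, q (Sum.inl r, c1), hq, ?_⟩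
  · classical
    unfold Code.ties
    rw [Finset.mem_filter]
    refine ⟨Finset.mem_univ _, hc, hl, hI1.symm, ?_, ?_, ?_⟩
    · simp only
      have : (C.u1 s : ℤ) = C.u1 r + 2 * (C.k c1 + C.k c2) * (C.k c1 * C.k c2) := by
        rw [← hk1, ← hk2]
        linarith
      exact_mod_cast this
    · simp only
      have : (C.u2 s : ℤ) = C.u2 r + (C.k c1 + C.k c2) ^ 2 + 2 * (C.k c1 * C.k c2) := by
        rw [← hk1, ← hk2]
        linarith
      exact_mod_cast this
    · simp only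
      have : (C.u3 s : ℤ) = C.u3 r + 2 * (C.k c1 + C.k c2) := by
        rw [← hk1, ← hk2]
        linarith
      exact_mod_cast this
  · rintro ⟨g, c⟩
    have hsg : (sg (Sum.inl r : Fin n ⊕ Fin n) : ℝ) * sg (Sum.inr s : Fin n ⊕ Fin n) = -1 := by
      simp [sg]
    rw [hsg] at v2 v3
    have w2 : q (Sum.inr s, c1) = q (Sum.inl r, c1) := by rw [v2]; ring
    have w3 : q (Sum.inr s, c2) = - q (Sum.inl r, c1) := by rw [v3]; ring
    unfold dco
    by_cases h1 : (g, c) = (Sum.inl r, c1) ∨ (g, c) = (Sum.inr s, c1)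
    · rw [if_pos h1, Int.cast_one, mul_one]
      rcases h1 with h1 | h1
      · rw [h1]
      · rw [h1, w2]
    · rw [if_neg h1]
      by_cases h2 : (g, c) = (Sum.inl r, c2) ∨ (g, c) = (Sum.inr s, c2)
      · rw [if_pos h2]
        push_cast
        rcases h2 with h2 | h2
        · rw [h2, v1]; ring
        · rw [h2, w3]; ring
      · rw [if_neg h2, Int.cast_zero, mul_zero]
        by_contra h4
        obtain ⟨h5, h6⟩ := hsup _ h4
        simp only at h5 h6
        rcases h5 with rfl | rfl <;> rcases h6 with rfl | rfl <;> simp at h1 h2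

/-- T1. -/
theorem T1 (C : Code n K f) (q : Arc n K → ℝ)
    (hcard : (univ.filter (fun v => q v ≠ 0)).card ≤ 5)
    (h : ∀ p : Par n K, ∑ v, q v * (C.basis p v : ℝ) = 0) :
    (∀ v, q v = 0) ∨ ∃ e ∈ C.ties, ∃ c : ℝ, c ≠ 0 ∧ ∀ v, q v = c * (dco e v : ℝ) := by
  classical
  by_cases hz : ∀ v, q v = 0
  · exact Or.inl hz
  right
  push Not at hz
  obtain ⟨⟨g1, c1⟩, hq⟩ := hz
  obtain ⟨S, hS⟩ : ∃ S : Finset (Arc n K), ∀ v, v ∈ S ↔ q v ≠ 0 :=
    ⟨univ.filter (fun v => q v ≠ 0), fun v => by simp⟩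
  have hScard : S.card ≤ 5 := by
    refine le_trans (Finset.card_le_card ?_) hcard
    intro v hv
    rw [Finset.mem_filter]
    exact ⟨Finset.mem_univ _, (hS v).mp hv⟩
  have hrows : (S.image Prod.fst).card ≤ 2 := by
    have h1 := Finset.mul_card_image_le_card (f := Prod.fst) S 2 (by
      intro g hg
      rw [Finset.mem_image] at hg
      obtain ⟨⟨g', c⟩, hv, rfl⟩ := hg
      obtain ⟨c', hc', hq'⟩ := t1_row C q h g' c ((hS _).mp hv)
      have h2 : ({(g', c), (g', c')} : Finset (Arc n K)) ⊆ S.filter (fun x => x.1 = g') := by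
        intro v hv'
        rw [Finset.mem_insert, Finset.mem_singleton] at hv'
        rw [Finset.mem_filter]
        rcases hv' with rfl | rfl
        · exact ⟨hv, rfl⟩
        · exact ⟨(hS _).mpr hq', rfl⟩
      have h3 := Finset.card_le_card h2
      rwa [Finset.card_pair (by simp [hc'.symm])] at h3)
    omega
  have hcols : (S.image Prod.snd).card ≤ 2 := by
    have h1 := Finset.mul_card_image_le_card (f := Prod.snd) S 2 (by
      intro c hc
      rw [Finset.mem_image] at hc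
      obtain ⟨⟨g, c'⟩, hv, rfl⟩ := hc
      obtain ⟨g', hg', -, hq'⟩ := t1_col C q h g c' ((hS _).mp hv)
      have h2 : ({(g, c'), (g', c')} : Finset (Arc n K)) ⊆ S.filter (fun x => x.2 = c') := by
        intro v hv'
        rw [Finset.mem_insert, Finset.mem_singleton] at hv'
        rw [Finset.mem_filter]
        rcases hv' with rfl | rfl
        · exact ⟨hv, rfl⟩
        · exact ⟨(hS _).mpr hq', rfl⟩
      have h3 := Finset.card_le_card h2
      rwa [Finset.card_pair (by simp [hg'.symm])] at h3)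
    omega
  obtain ⟨c2, hc21, hq2⟩ := t1_row C q h g1 c1 hq
  obtain ⟨g2, hg21, hI21, hq3⟩ := t1_col C q h g1 c1 hq
  have hmemR : ∀ g, g ∈ S.image Prod.fst → g = g1 ∨ g = g2 := by
    intro g hg
    by_contra hcon
    push Not at hcon
    have h2 : ({g, g1, g2} : Finset (Fin n ⊕ Fin n)) ⊆ S.image Prod.fst := by
      intro x hx
      rw [Finset.mem_insert, Finset.mem_insert, Finset.mem_singleton] at hx
      rcases hx with rfl | rfl | rfl
      · exact hg
      · exact Finset.mem_image.mpr ⟨_, (hS _).mpr hq, rfl⟩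
      · exact Finset.mem_image.mpr ⟨_, (hS _).mpr hq3, rfl⟩
    have h3 := Finset.card_le_card h2
    rw [Finset.card_eq_three.mpr ⟨g, g1, g2, hcon.1, hcon.2, hg21.symm, rfl⟩] at h3
    omega
  have hmemC : ∀ c, c ∈ S.image Prod.snd → c = c1 ∨ c = c2 := by
    intro c hc
    by_contra hcon
    push Not at hcon
    have h2 : ({c, c1, c2} : Finset (Fin K)) ⊆ S.image Prod.snd := by
      intro x hx
      rw [Finset.mem_insert, Finset.mem_insert, Finset.mem_singleton] at hx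
      rcases hx with rfl | rfl | rfl
      · exact hc
      · exact Finset.mem_image.mpr ⟨_, (hS _).mpr hq, rfl⟩
      · exact Finset.mem_image.mpr ⟨_, (hS _).mpr hq2, rfl⟩
    have h3 := Finset.card_le_card h2
    rw [Finset.card_eq_three.mpr ⟨c, c1, c2, hcon.1, hcon.2, hc21.symm, rfl⟩] at h3
    omega
  have hsup : ∀ v, q v ≠ 0 → (v.1 = g1 ∨ v.1 = g2) ∧ (v.2 = c1 ∨ v.2 = c2) := by
    intro v hv
    exact ⟨hmemR _ (Finset.mem_image.mpr ⟨v, (hS _).mpr hv, rfl⟩),
      hmemC _ (Finset.mem_image.mpr ⟨v, (hS _).mpr hv, rfl⟩)⟩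
  have hI22 : C.I g2 c2 = C.I g1 c2 := by
    obtain ⟨g', hg', hI', hq'⟩ := t1_col C q h g1 c2 hq2
    rcases (hsup _ hq').1 with h1 | h1
    · exact absurd h1 hg'
    · simp only at h1
      rw [← h1]
      exact hI'
  have hq4 : q (g2, c2) ≠ 0 := by
    obtain ⟨c', hc', hq'⟩ := t1_row C q h g2 c1 hq3
    rcases (hsup _ hq').2 with h1 | h1
    · exact absurd h1 hc'
    · simp only at h1
      rwa [h1] at hq'
  -- the sides
  cases g1 with
  | inl r =>
    cases g2 with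
    | inl r' =>
      exfalso
      have h3 := fun j => t1_third C q h hg21.symm hc21.symm hsup hI21 hq j
      refine t1_core C r r' (fun e => hg21 (by rw [e])) hI21.symm c1 c2 hc21.symm
        (fun j c => C.ph j (Sum.inl r) c - C.ph j (Sum.inl r') c) ?_ ?_ ?_
        (fun hl j => (h3 j).1 hl) (fun hl j => (h3 j).2 hl rfl rfl)
      · intro c; simp only [Code.ph]; ring
      · intro c; simp only [Code.ph]; ring
      · intro c; simp only [Code.ph]; ring
    | inr s =>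
      rcases lt_or_gt_of_ne hc21 with hlt | hlt
      · -- c2 < c1
        exact t1_opp C q h hlt (fun v hv => ⟨(hsup v hv).1, (hsup v hv).2.symm⟩) hI22 hI21 hq2
      · exact t1_opp C q h hlt hsup hI21 hI22 hq
  | inr s =>
    cases g2 with
    | inl r =>
      rcases lt_or_gt_of_ne hc21 with hlt | hlt
      · exact t1_opp C q h hlt (fun v hv => ⟨(hsup v hv).1.symm, (hsup v hv).2.symm⟩) hI22.symm
          hI21.symm hq4
      · exact t1_opp C q h hlt (fun v hv => ⟨(hsup v hv).1.symm, (hsup v hv).2⟩) hI21.symm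
          hI22.symm hq3
    | inr s' =>
      exfalso
      have h3 := fun j => t1_third C q h hg21.symm hc21.symm hsup hI21 hq j
      have hi : C.i s = C.i s' := by
        have h4 : C.i s' + C.l c1 = C.i s + C.l c1 := hI21
        omega
      refine t1_core C s s' (fun e => hg21 (by rw [e])) hi c1 c2 hc21.symm
        (fun j c => C.ph j (Sum.inr s) c - C.ph j (Sum.inr s') c) ?_ ?_ ?_
        (fun hl j => (h3 j).1 hl) (fun hl j => (h3 j).2 hl ?_ ?_)
      · intro c; simp only [Code.ph]; ring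
      · intro c; simp only [Code.ph]; ring
      · intro c; simp only [Code.ph]; ring
      · show C.i s + C.l c2 = C.i s + C.l c1
        omega
      · show C.i s' + C.l c2 = C.i s' + C.l c1
        omega

end Pool.Agent.H463R2.DT
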