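import Pool.Agent.H463R2.DT.Defs

set_option autoImplicit false

open Finset

namespace Pool.Agent.H463R2.DT

variable {n K f : ℕ}

theorem t2_I_lt (C : Code n K f) (g : Fin n ⊕ Fin n) (c : Fin K) : C.I g c < n + K := by
  cases g with
  | inl r => have := C.i_lt r; simp only [Code.I]; omega
  | inr s => have := C.i_lt s; have := C.l_lt c; simp only [Code.I]; omega

/-- the parameters of a pair list, column -/
def t2y (C : Code n K f) (y : Par n K → ℤ) (g : Fin n ⊕ Fin n) (c : Fin K) : ℤ :=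
  y (Sum.inr (Sum.inl (c, ⟨C.I g c, t2_I_lt C g c⟩))) +
    (y (Sum.inr (Sum.inr (0, ⟨C.I g c, t2_I_lt C g c⟩, ⟨C.l c, C.l_lt c⟩))) * C.ph 0 g c +
     y (Sum.inr (Sum.inr (1, ⟨C.I g c, t2_I_lt C g c⟩, ⟨C.l c, C.l_lt c⟩))) * C.ph 1 g c +
     y (Sum.inr (Sum.inr (2, ⟨C.I g c, t2_I_lt C g c⟩, ⟨C.l c, C.l_lt c⟩))) * C.ph 2 g c)

theorem t2_sum (C : Code n K f) (y : Par n K → ℤ) (g : Fin n ⊕ Fin n) (c : Fin K) :
    ∑ p, y p * C.basis p (g, c) = y (Sum.inl g) + sg g * t2y C y g c := by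
  have h1 : ∑ g', y (Sum.inl g') * C.basis (Sum.inl g') (g, c) = y (Sum.inl g) := by
    rw [Finset.sum_eq_single g]
    · simp [Code.basis]
    · intro b _ hb
      simp [Code.basis, Ne.symm hb]
    · intro h; exact absurd (Finset.mem_univ g) h
  have h2 : ∑ q : Fin K × Fin (n + K),
      y (Sum.inr (Sum.inl q)) * C.basis (Sum.inr (Sum.inl q)) (g, c) =
      sg g * y (Sum.inr (Sum.inl (c, ⟨C.I g c, t2_I_lt C g c⟩))) := by
    rw [Finset.sum_eq_single (c, ⟨C.I g c, t2_I_lt C g c⟩)]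
    · simp [Code.basis]; ring
    · rintro ⟨c', i⟩ _ hb
      simp only [Code.basis]
      rw [if_neg, mul_zero]
      rintro ⟨h3, h4⟩
      apply hb
      rw [Prod.mk.injEq]
      exact ⟨h3.symm, Fin.ext h4.symm⟩
    · intro h; exact absurd (Finset.mem_univ _) h
  have h3 : ∀ r : Fin 3, ∑ q : Fin (n + K) × Fin K,
      y (Sum.inr (Sum.inr (r, q))) * C.basis (Sum.inr (Sum.inr (r, q))) (g, c) =
      sg g * (y (Sum.inr (Sum.inr (r, ⟨C.I g c, t2_I_lt C g c⟩, ⟨C.l c, C.l_lt c⟩))) *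
        C.ph r g c) := by
    intro r
    rw [Finset.sum_eq_single (⟨C.I g c, t2_I_lt C g c⟩, ⟨C.l c, C.l_lt c⟩)]
    · simp [Code.basis]; ring
    · rintro ⟨i, l⟩ _ hb
      simp only [Code.basis]
      rw [if_neg, mul_zero]
      rintro ⟨h3, h4⟩
      apply hb
      rw [Prod.mk.injEq]
      exact ⟨Fin.ext h4.symm, Fin.ext h3.symm⟩
    · intro h; exact absurd (Finset.mem_univ _) h
  rw [Fintype.sum_sum_type, h1, Fintype.sum_sum_type, h2, Fintype.sum_prod_type, Fin.sum_univ_three,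
    h3, h3, h3]
  unfold t2y
  ring

theorem t2_x0_inl (C : Code n K f) (A B T : ℤ) (y : Par n K → ℤ) (r : Fin n) (c : Fin K) :
    C.x0 A B T y (Sum.inl r, c) = A + B * ((C.l c : ℤ) ^ 2 - 2 * C.l c * C.i r) +
      T * C.ph 0 (Sum.inl r) c + (y (Sum.inl (Sum.inl r)) + t2y C y (Sum.inl r) c) := by
  unfold Code.x0
  rw [t2_sum]
  simp [sg]

theorem t2_x0_inr (C : Code n K f) (A B T : ℤ) (y : Par n K → ℤ) (s : Fin n) (c : Fin K) :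
    C.x0 A B T y (Sum.inr s, c) = A + B * (2 * C.l c * C.i s) -
      T * C.ph 0 (Sum.inr s) c + (y (Sum.inl (Sum.inr s)) - t2y C y (Sum.inr s) c) := by
  unfold Code.x0
  rw [t2_sum]
  simp [sg]
  ring

/-- the difference of the parameter parts in the block of the tie -/
theorem t2_block (C : Code n K f) (y : Par n K → ℤ) (r s : Fin n) (c c1 : Fin K)
    (hl1 : C.i r = C.i s + C.l c1) (hl : C.l c = C.l c1) :
    ∃ y0 y1 y2 : ℤ, (∀ Y : ℤ, (∀ p, 0 ≤ y p ∧ y p ≤ Y) →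
      (0 ≤ y0 ∧ y0 ≤ Y) ∧ (0 ≤ y1 ∧ y1 ≤ Y) ∧ (0 ≤ y2 ∧ y2 ≤ Y)) ∧
    t2y C y (Sum.inl r) c - t2y C y (Sum.inr s) c =
      y0 * (C.ph 0 (Sum.inl r) c - C.ph 0 (Sum.inr s) c) +
      y1 * (C.ph 1 (Sum.inl r) c - C.ph 1 (Sum.inr s) c) +
      y2 * (C.ph 2 (Sum.inl r) c - C.ph 2 (Sum.inr s) c) ∧
    t2y C y (Sum.inl r) c1 - t2y C y (Sum.inr s) c1 =
      y0 * (C.ph 0 (Sum.inl r) c1 - C.ph 0 (Sum.inr s) c1) +
      y1 * (C.ph 1 (Sum.inl r) c1 - C.ph 1 (Sum.inr s) c1) +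
      y2 * (C.ph 2 (Sum.inl r) c1 - C.ph 2 (Sum.inr s) c1) := by
  have e1 : (⟨C.I (Sum.inr s) c, t2_I_lt C (Sum.inr s) c⟩ : Fin (n + K)) =
      ⟨C.I (Sum.inl r) c, t2_I_lt C (Sum.inl r) c⟩ := by
    apply Fin.ext
    simp only [Code.I]
    omega
  have e2 : (⟨C.I (Sum.inr s) c1, t2_I_lt C (Sum.inr s) c1⟩ : Fin (n + K)) =
      ⟨C.I (Sum.inl r) c, t2_I_lt C (Sum.inl r) c⟩ := by
    apply Fin.ext
    simp only [Code.I]
    omega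
  have e3 : (⟨C.I (Sum.inl r) c1, t2_I_lt C (Sum.inl r) c1⟩ : Fin (n + K)) =
      ⟨C.I (Sum.inl r) c, t2_I_lt C (Sum.inl r) c⟩ := by
    apply Fin.ext
    simp only [Code.I]
  have e4 : (⟨C.l c1, C.l_lt c1⟩ : Fin K) = ⟨C.l c, C.l_lt c⟩ := Fin.ext hl.symm
  refine ⟨y (Sum.inr (Sum.inr (0, ⟨C.I (Sum.inl r) c, t2_I_lt C (Sum.inl r) c⟩, ⟨C.l c, C.l_lt c⟩))),
    y (Sum.inr (Sum.inr (1, ⟨C.I (Sum.inl r) c, t2_I_lt C (Sum.inl r) c⟩, ⟨C.l c, C.l_lt c⟩))),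
    y (Sum.inr (Sum.inr (2, ⟨C.I (Sum.inl r) c, t2_I_lt C (Sum.inl r) c⟩, ⟨C.l c, C.l_lt c⟩))),
    fun Y hY => ⟨hY _, hY _, hY _⟩, ?_, ?_⟩
  · unfold t2y
    rw [e1]
    ring
  · unfold t2y
    rw [e2, e3, e4]
    ring

/-- the polynomial identities -/
theorem t2_poly (C : Code n K f) (r s : Fin n) (c : Fin K) (k1 k2 : ℕ)
    (h1 : C.u1 s = C.u1 r + 2 * (k1 + k2) * (k1 * k2))
    (h2 : C.u2 s = C.u2 r + (k1 + k2) ^ 2 + 2 * (k1 * k2))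
    (h3 : C.u3 s = C.u3 r + 2 * (k1 + k2)) :
    C.ph 0 (Sum.inl r) c - C.ph 0 (Sum.inr s) c =
      (((C.k c : ℤ) - k1) * (C.k c - k2)) ^ 2 - (k1 * k2 : ℤ) ^ 2 ∧
    C.ph 1 (Sum.inl r) c - C.ph 1 (Sum.inr s) c =
      2 * (((C.k c : ℤ) - k1) * (C.k c - k2)) * (((C.k c : ℤ) - k1) + (C.k c - k2)) ∧
    C.ph 2 (Sum.inl r) c - C.ph 2 (Sum.inr s) c =
      6 * (((C.k c : ℤ) - k1) * (C.k c - k2)) + ((k1 : ℤ) - k2) ^ 2 := by
  have h1' : (C.u1 s : ℤ) = C.u1 r + 2 * (k1 + k2) * (k1 * k2) := by exact_mod_cast h1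
  have h2' : (C.u2 s : ℤ) = C.u2 r + (k1 + k2) ^ 2 + 2 * (k1 * k2) := by exact_mod_cast h2
  have h3' : (C.u3 s : ℤ) = C.u3 r + 2 * (k1 + k2) := by exact_mod_cast h3
  simp only [Code.ph]
  rw [h1', h2', h3']
  refine ⟨by ring, by ring, by ring⟩

theorem T2a (C : Code n K f) (A B T : ℤ) (y : Par n K → ℤ) (e : Quad n K) (he : C.Tie e) :
    C.x0 A B T y (Sum.inl e.1.1, e.2.1) + C.x0 A B T y (Sum.inr e.1.2, e.2.1)
      = C.x0 A B T y (Sum.inl e.1.1, e.2.2) + C.x0 A B T y (Sum.inr e.1.2, e.2.2) := by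
  obtain ⟨⟨r, s⟩, ⟨c1, c2⟩⟩ := e
  obtain ⟨_, hl, hi, hu1, hu2, hu3⟩ := he
  simp only at hl hi hu1 hu2 hu3 ⊢
  rw [t2_x0_inl, t2_x0_inr, t2_x0_inl, t2_x0_inr]
  obtain ⟨y0, y1, y2, _, hb2, hb1⟩ := t2_block C y r s c2 c1 hi hl.symm
  obtain ⟨p0, p1, p2⟩ := t2_poly C r s c1 (C.k c1) (C.k c2) hu1 hu2 hu3
  obtain ⟨q0, q1, q2⟩ := t2_poly C r s c2 (C.k c1) (C.k c2) hu1 hu2 hu3
  rw [p0, p1, p2] at hb1
  rw [q0, q1, q2] at hb2
  have hl' : (C.l c1 : ℤ) = C.l c2 := by exact_mod_cast hl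
  rw [hl']
  linear_combination hb1 - hb2 + T * p0 - T * q0

theorem t2_prod_abs {a b α β : ℤ} (ha : |a| ≤ α) (hb : |b| ≤ β) : |a * b| ≤ α * β := by
  rw [abs_mul]
  exact mul_le_mul ha hb (abs_nonneg b) ((abs_nonneg a).trans ha)

/-- the features are small -/
theorem t2_ph (C : Code n K f) (ρ : Fin 3) (g : Fin n ⊕ Fin n) (c : Fin K) :
    |C.ph ρ g c| ≤ 10 * n * (f : ℤ) ^ 4 := by
  have hk1 : (1 : ℤ) ≤ C.k c := by exact_mod_cast C.kpos c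
  have hkf : (C.k c : ℤ) ≤ f := by exact_mod_cast C.kle c
  have hf1 : (1 : ℤ) ≤ f := hk1.trans hkf
  have hn1 : (1 : ℤ) ≤ n := by
    have : 0 < n := by
      cases g with
      | inl r => exact r.pos
      | inr s => exact s.pos
    exact_mod_cast this
  have key : ∀ (u1 u2 u3 : ℕ), u1 < n → u2 < n → u3 < n →
      (|(C.k c : ℤ) ^ 4 + u3 * (C.k c : ℤ) ^ 3 - u2 * (C.k c : ℤ) ^ 2 + u1 * C.k c| ≤
        10 * n * (f : ℤ) ^ 4) ∧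
      (|4 * (C.k c : ℤ) ^ 3 + 3 * u3 * (C.k c : ℤ) ^ 2 - 2 * u2 * C.k c + u1| ≤
        10 * n * (f : ℤ) ^ 4) ∧
      (|6 * (C.k c : ℤ) ^ 2 + 3 * u3 * C.k c - u2| ≤ 10 * n * (f : ℤ) ^ 4) ∧
      (|u3 * (C.k c : ℤ) ^ 3 - u2 * (C.k c : ℤ) ^ 2 + u1 * C.k c| ≤ 10 * n * (f : ℤ) ^ 4) ∧
      (|3 * u3 * (C.k c : ℤ) ^ 2 - 2 * u2 * C.k c + u1| ≤ 10 * n * (f : ℤ) ^ 4) ∧
      (|3 * u3 * (C.k c : ℤ) - u2| ≤ 10 * n * (f : ℤ) ^ 4) := by
    intro u1 u2 u3 h1 h2 h3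
    have h1' : (u1 : ℤ) ≤ n := by exact_mod_cast h1.le
    have h2' : (u2 : ℤ) ≤ n := by exact_mod_cast h2.le
    have h3' : (u3 : ℤ) ≤ n := by exact_mod_cast h3.le
    have p1 : (0 : ℤ) ≤ u1 := by positivity
    have p2 : (0 : ℤ) ≤ u2 := by positivity
    have p3 : (0 : ℤ) ≤ u3 := by positivity
    have hk0 : (0 : ℤ) ≤ C.k c := by linarith
    have hn0 : (0 : ℤ) ≤ n := by linarith
    -- powers
    have f2 : (f : ℤ) ≤ (f : ℤ) ^ 2 := by nlinarith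
    have f3 : (f : ℤ) ^ 2 ≤ (f : ℤ) ^ 3 := by nlinarith [sq_nonneg (f : ℤ)]
    have f4 : (f : ℤ) ^ 3 ≤ (f : ℤ) ^ 4 := by nlinarith [pow_nonneg (show (0 : ℤ) ≤ f by linarith) 3]
    have k2 : (C.k c : ℤ) ^ 2 ≤ (f : ℤ) ^ 2 := pow_le_pow_left₀ hk0 hkf 2
    have k3 : (C.k c : ℤ) ^ 3 ≤ (f : ℤ) ^ 3 := pow_le_pow_left₀ hk0 hkf 3
    have k4 : (C.k c : ℤ) ^ 4 ≤ (f : ℤ) ^ 4 := pow_le_pow_left₀ hk0 hkf 4
    -- all the products are at most n f^4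
    have F : (0 : ℤ) ≤ (f : ℤ) ^ 4 := by positivity
    have m4 : (C.k c : ℤ) ^ 4 ≤ n * (f : ℤ) ^ 4 := by nlinarith
    have m3 : (C.k c : ℤ) ^ 3 ≤ n * (f : ℤ) ^ 4 := by nlinarith
    have m2 : (C.k c : ℤ) ^ 2 ≤ n * (f : ℤ) ^ 4 := by nlinarith
    have m0 : (n : ℤ) ≤ n * (f : ℤ) ^ 4 := by nlinarith
    have ukey : ∀ (u : ℕ) (x : ℤ), (u : ℤ) ≤ n → 0 ≤ x → x ≤ (f : ℤ) ^ 4 →
        0 ≤ (u : ℤ) * x ∧ (u : ℤ) * x ≤ n * (f : ℤ) ^ 4 := by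
      intro u x hu hx hxf
      refine ⟨by positivity, mul_le_mul hu hxf hx hn0⟩
    have a1 := ukey u1 (C.k c) h1' hk0 (by linarith)
    have a2 := ukey u2 (C.k c) h2' hk0 (by linarith)
    have a3 := ukey u3 (C.k c) h3' hk0 (by linarith)
    have b2 := ukey u2 ((C.k c : ℤ) ^ 2) h2' (by positivity) (by linarith)
    have b3 := ukey u3 ((C.k c : ℤ) ^ 2) h3' (by positivity) (by linarith)
    have c3 := ukey u3 ((C.k c : ℤ) ^ 3) h3' (by positivity) (by linarith)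
    have z2 : (0 : ℤ) ≤ (C.k c : ℤ) ^ 2 := by positivity
    have z3 : (0 : ℤ) ≤ (C.k c : ℤ) ^ 3 := by positivity
    have z4 : (0 : ℤ) ≤ (C.k c : ℤ) ^ 4 := by positivity
    refine ⟨?_, ?_, ?_, ?_, ?_, ?_⟩ <;> rw [abs_le] <;> constructor <;> nlinarith
  cases g with
  | inl r =>
    obtain ⟨h0, h1, h2, _, _, _⟩ := key (C.u1 r) (C.u2 r) (C.u3 r) (C.u1_lt r) (C.u2_lt r) (C.u3_lt r)
    match ρ with
    | 0 => exact h0
    | 1 => exact h1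
    | 2 => exact h2
  | inr s =>
    obtain ⟨_, _, _, h0, h1, h2⟩ := key (C.u1 s) (C.u2 s) (C.u3 s) (C.u1_lt s) (C.u2_lt s) (C.u3_lt s)
    match ρ with
    | 0 => exact h0
    | 1 => exact h1
    | 2 => exact h2

/-- the size of the small part at one arc -/
theorem t2_small (C : Code n K f) (T Y : ℤ) (y : Par n K → ℤ) (hy : ∀ p, 0 ≤ y p ∧ y p ≤ Y)
    (hT : 0 ≤ T) (g : Fin n ⊕ Fin n) (c : Fin K) :
    |T * C.ph 0 g c + t2y C y g c| ≤ Y + (T + 3 * Y) * (10 * n * f ^ 4) := by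
  have h0 := t2_ph C 0 g c
  have h1 := t2_ph C 1 g c
  have h2 := t2_ph C 2 g c
  have hyp := hy (Sum.inr (Sum.inl (c, ⟨C.I g c, t2_I_lt C g c⟩)))
  have hy0 := hy (Sum.inr (Sum.inr (0, ⟨C.I g c, t2_I_lt C g c⟩, ⟨C.l c, C.l_lt c⟩)))
  have hy1 := hy (Sum.inr (Sum.inr (1, ⟨C.I g c, t2_I_lt C g c⟩, ⟨C.l c, C.l_lt c⟩)))
  have hy2 := hy (Sum.inr (Sum.inr (2, ⟨C.I g c, t2_I_lt C g c⟩, ⟨C.l c, C.l_lt c⟩)))
  unfold t2y
  set a := y (Sum.inr (Sum.inl (c, ⟨C.I g c, t2_I_lt C g c⟩)))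
  set a0 := y (Sum.inr (Sum.inr (0, ⟨C.I g c, t2_I_lt C g c⟩, ⟨C.l c, C.l_lt c⟩)))
  set a1 := y (Sum.inr (Sum.inr (1, ⟨C.I g c, t2_I_lt C g c⟩, ⟨C.l c, C.l_lt c⟩)))
  set a2 := y (Sum.inr (Sum.inr (2, ⟨C.I g c, t2_I_lt C g c⟩, ⟨C.l c, C.l_lt c⟩)))
  set X : ℤ := 10 * n * (f : ℤ) ^ 4 with hX
  have habs : ∀ a : ℤ, 0 ≤ a ∧ a ≤ Y → |a| ≤ Y := fun a ha => by
    rw [abs_of_nonneg ha.1]; exact ha.2
  have k0 : |T * C.ph 0 g c| ≤ T * X := t2_prod_abs (by rw [abs_of_nonneg hT]) h0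
  have k1 : |a0 * C.ph 0 g c| ≤ Y * X := t2_prod_abs (habs _ hy0) h0
  have k2 : |a1 * C.ph 1 g c| ≤ Y * X := t2_prod_abs (habs _ hy1) h1
  have k3 : |a2 * C.ph 2 g c| ≤ Y * X := t2_prod_abs (habs _ hy2) h2
  have k4 : |a| ≤ Y := habs _ hyp
  rw [abs_le] at k0 k1 k2 k3 k4 ⊢
  constructor <;> nlinarith

theorem T2b (C : Code n K f) (A B T G Y : ℤ) (y : Par n K → ℤ)
    (hy : ∀ p, 0 ≤ y p ∧ y p ≤ Y) (hG : 0 ≤ G) (hT : G + 10 * f ^ 3 * Y ≤ T)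
    (hB : G + 4 * (Y + (T + 3 * Y) * (10 * n * f ^ 4)) ≤ B)
    (e : Quad n K) (he : C.Tie e) (c : Fin K) (hc1 : c ≠ e.2.1) (hc2 : c ≠ e.2.2) :
    C.x0 A B T y (Sum.inl e.1.1, e.2.1) + C.x0 A B T y (Sum.inr e.1.2, e.2.1) + G
      ≤ C.x0 A B T y (Sum.inl e.1.1, c) + C.x0 A B T y (Sum.inr e.1.2, c) := by
  obtain ⟨⟨r, s⟩, ⟨c1, c2⟩⟩ := e
  obtain ⟨_, hl, hi, hu1, hu2, hu3⟩ := he
  simp only at hl hi hu1 hu2 hu3 hc1 hc2 ⊢
  have hY0 : 0 ≤ Y := (hy (Sum.inl (Sum.inl r))).1.trans (hy (Sum.inl (Sum.inl r))).2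
  have hT0 : 0 ≤ T := by
    have : (0 : ℤ) ≤ 10 * f ^ 3 * Y := by positivity
    linarith
  have hi' : (C.i r : ℤ) = C.i s + C.l c1 := by exact_mod_cast hi
  rw [t2_x0_inl, t2_x0_inr, t2_x0_inl, t2_x0_inr]
  by_cases hlc : C.l c = C.l c1
  · obtain ⟨y0, y1, y2, hyy, hb2, hb1⟩ := t2_block C y r s c c1 hi hlc
    obtain ⟨hy0, hy1, hy2⟩ := hyy Y hy
    obtain ⟨p0, p1, p2⟩ := t2_poly C r s c1 (C.k c1) (C.k c2) hu1 hu2 hu3
    obtain ⟨q0, q1, q2⟩ := t2_poly C r s c (C.k c1) (C.k c2) hu1 hu2 hu3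
    rw [p0, p1, p2] at hb1
    rw [q0, q1, q2] at hb2
    have hl' : (C.l c1 : ℤ) = C.l c := by exact_mod_cast hlc.symm
    rw [hl']
    have hk1 : (C.k c : ℤ) - C.k c1 ≠ 0 := by
      intro h
      apply hc1
      apply C.injk c c1 hlc
      have : (C.k c : ℤ) = C.k c1 := by linarith
      exact_mod_cast this
    have hk2 : (C.k c : ℤ) - C.k c2 ≠ 0 := by
      intro h
      apply hc2
      apply C.injk c c2 (hlc.trans hl)
      have : (C.k c : ℤ) = C.k c2 := by linarith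
      exact_mod_cast this
    have bd : ∀ d : Fin K, (1 : ℤ) ≤ C.k d ∧ (C.k d : ℤ) ≤ f := fun d =>
      ⟨by exact_mod_cast C.kpos d, by exact_mod_cast C.kle d⟩
    have b0 := bd c
    have b1 := bd c1
    have b2 := bd c2
    set d1 : ℤ := (C.k c : ℤ) - C.k c1 with hd1
    set d2 : ℤ := (C.k c : ℤ) - C.k c2 with hd2
    have a1 : |d1| ≤ f := by rw [abs_le]; constructor <;> linarith [b0.1, b0.2, b1.1, b1.2]
    have a2 : |d2| ≤ f := by rw [abs_le]; constructor <;> linarith [b0.1, b0.2, b2.1, b2.2]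
    have a12 : |d1 * d2| ≤ f * f := t2_prod_abs a1 a2
    have asum : |d1 + d2| ≤ 2 * f := by
      rw [abs_le] at a1 a2 ⊢
      constructor <;> linarith
    have w1 : 1 ≤ (d1 * d2) ^ 2 := by
      have h := mul_ne_zero hk1 hk2
      have : 0 < (d1 * d2) ^ 2 := by positivity
      linarith
    have g1 : |y1 * (2 * (d1 * d2) * (d1 + d2))| ≤ Y * ((2 * (f * f)) * (2 * f)) := by
      apply t2_prod_abs (by rw [abs_of_nonneg hy1.1]; exact hy1.2)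
      apply t2_prod_abs _ asum
      exact t2_prod_abs (by norm_num) a12
    have g2 : |y2 * (6 * (d1 * d2))| ≤ Y * (6 * (f * f)) := by
      apply t2_prod_abs (by rw [abs_of_nonneg hy2.1]; exact hy2.2)
      exact t2_prod_abs (by norm_num) a12
    have hf1 : (1 : ℤ) ≤ f := b0.1.trans b0.2
    have g3 : Y * (6 * (f * f)) ≤ Y * (6 * (f : ℤ) ^ 3) := by
      apply mul_le_mul_of_nonneg_left _ hY0
      nlinarith [sq_nonneg (f : ℤ)]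
    rw [abs_le] at g1 g2
    have g4 : T * 1 ≤ T * (d1 * d2) ^ 2 := mul_le_mul_of_nonneg_left w1 hT0
    have g5 : 0 ≤ y0 * (d1 * d2) ^ 2 := mul_nonneg hy0.1 (by positivity)
    have e0 : (C.k c1 : ℤ) - C.k c1 = 0 := by ring
    rw [e0] at hb1 p0
    have hfin : G ≤ T * (d1 * d2) ^ 2 + y0 * (d1 * d2) ^ 2 +
        y1 * (2 * (d1 * d2) * (d1 + d2)) + y2 * (6 * (d1 * d2)) := by
      have h1 := g1.1
      have h2 := g2.1
      have h3 : Y * ((2 * (f * f)) * (2 * f)) = 4 * (f : ℤ) ^ 3 * Y := by ring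
      have h4 : Y * (6 * (f : ℤ) ^ 3) = 6 * (f : ℤ) ^ 3 * Y := by ring
      linarith
    linarith [hb1, hb2, p0, q0, congrArg (T * ·) p0, congrArg (T * ·) q0, hfin]
  · have s1 := t2_small C T Y y hy hT0 (Sum.inl r) c1
    have s2 := t2_small C T Y y hy hT0 (Sum.inr s) c1
    have s3 := t2_small C T Y y hy hT0 (Sum.inl r) c
    have s4 := t2_small C T Y y hy hT0 (Sum.inr s) c
    rw [abs_le] at s1 s2 s3 s4
    have hB0 : 0 ≤ B := by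
      have h5 : 0 ≤ Y + (T + 3 * Y) * (10 * n * f ^ 4) := by
        have := s1.1.trans s1.2
        linarith
      linarith
    have hsq : 1 ≤ ((C.l c : ℤ) - C.l c1) ^ 2 := by
      have h : (C.l c : ℤ) - C.l c1 ≠ 0 := by
        intro h
        apply hlc
        have : (C.l c : ℤ) = C.l c1 := by linarith
        exact_mod_cast this
      have : 0 < ((C.l c : ℤ) - C.l c1) ^ 2 := by positivity
      linarith
    have hBB : B * 1 ≤ B * ((C.l c : ℤ) - C.l c1) ^ 2 := mul_le_mul_of_nonneg_left hsq hB0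
    rw [hi']
    nlinarith [s1.1, s1.2, s2.1, s2.2, s3.1, s3.2, s4.1, s4.2]

theorem T2c (C : Code n K f) (A B T Y : ℤ) (y : Par n K → ℤ)
    (hy : ∀ p, 0 ≤ y p ∧ y p ≤ Y) (hT : 0 ≤ T) (hK : K ≤ n)
    (hB : 4 * (Y + (T + 3 * Y) * (10 * n * f ^ 4)) ≤ B) (v : Arc n K) :
    A - 3 * n ^ 2 * B ≤ C.x0 A B T y v ∧ C.x0 A B T y v ≤ A + 3 * n ^ 2 * B := by
  obtain ⟨g, c⟩ := v
  have hs := t2_small C T Y y hy hT g c
  have hy' := hy (Sum.inl g)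
  have hY0 : 0 ≤ Y := hy'.1.trans hy'.2
  have hn1 : (1 : ℤ) ≤ n := by
    have : 0 < n := by
      cases g with
      | inl r => exact r.pos
      | inr s => exact s.pos
    exact_mod_cast this
  have hX : 0 ≤ (T + 3 * Y) * (10 * (n : ℤ) * f ^ 4) := by positivity
  rw [abs_le] at hs
  have hB0 : 0 ≤ B := by linarith
  have hn2 : (1 : ℤ) ≤ n ^ 2 := one_le_pow₀ hn1
  have hBn : 1 * B ≤ n ^ 2 * B := mul_le_mul_of_nonneg_right hn2 hB0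
  have hl0 : (0 : ℤ) ≤ C.l c := by positivity
  have hln : (C.l c : ℤ) ≤ n := by
    have := C.l_lt c
    exact_mod_cast (by omega : C.l c ≤ n)
  cases g with
  | inl r =>
    rw [t2_x0_inl]
    have hi0 : (0 : ℤ) ≤ C.i r := by positivity
    have hin : (C.i r : ℤ) ≤ n := by exact_mod_cast (C.i_lt r).le
    have hli0 : 0 ≤ (C.l c : ℤ) * C.i r := mul_nonneg hl0 hi0
    have hli : (C.l c : ℤ) * C.i r ≤ n * n := mul_le_mul hln hin hi0 (by linarith)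
    have hll0 : 0 ≤ (C.l c : ℤ) * C.l c := mul_nonneg hl0 hl0
    have hll : (C.l c : ℤ) * C.l c ≤ n * n := mul_le_mul hln hln hl0 (by linarith)
    have m1 : B * ((C.l c : ℤ) ^ 2 - 2 * C.l c * C.i r) ≤ B * (2 * n ^ 2) := by
      apply mul_le_mul_of_nonneg_left _ hB0
      nlinarith
    have m2 : B * (-(2 * (n : ℤ) ^ 2)) ≤ B * ((C.l c : ℤ) ^ 2 - 2 * C.l c * C.i r) := by
      apply mul_le_mul_of_nonneg_left _ hB0
      nlinarith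
    constructor <;> nlinarith [hs.1, hs.2, hy'.1, hy'.2]
  | inr s =>
    rw [t2_x0_inr]
    have hi0 : (0 : ℤ) ≤ C.i s := by positivity
    have hin : (C.i s : ℤ) ≤ n := by exact_mod_cast (C.i_lt s).le
    have hli0 : 0 ≤ (C.l c : ℤ) * C.i s := mul_nonneg hl0 hi0
    have hli : (C.l c : ℤ) * C.i s ≤ n * n := mul_le_mul hln hin hi0 (by linarith)
    have m1 : B * (2 * C.l c * C.i s) ≤ B * (2 * n ^ 2) := by
      apply mul_le_mul_of_nonneg_left _ hB0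
      nlinarith
    have m2 : 0 ≤ B * (2 * (C.l c : ℤ) * C.i s) := by
      apply mul_nonneg hB0
      nlinarith
    constructor <;> nlinarith [hs.1, hs.2, hy'.1, hy'.2]

end Pool.Agent.H463R2.DT
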