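import Pool.Agent.H463R2.DT.Defs

set_option autoImplicit false

open Finset

namespace Pool.Agent.H463R2.DT

variable {n K f : ℕ}

namespace T6Aux

theorem dig {q u X : ℕ} (h : u < X) : (q * X + u) % X = u ∧ (q * X + u) / X = q := by
  constructor
  · rw [Nat.mul_comm, Nat.mul_add_mod]
    exact Nat.mod_eq_of_lt h
  · rw [Nat.mul_comm, Nat.mul_add_div (by omega), Nat.div_eq_of_lt h, add_zero]

/-- mixed radix numbers -/
def enc (X1 X2 X3 i u1 u2 u3 : ℕ) : ℕ := ((i * X1 + u1) * X2 + u2) * X3 + u3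

theorem enc_digits {X1 X2 X3 i u1 u2 u3 : ℕ} (h1 : u1 < X1) (h2 : u2 < X2) (h3 : u3 < X3) :
    enc X1 X2 X3 i u1 u2 u3 % X3 = u3 ∧ (enc X1 X2 X3 i u1 u2 u3 / X3) % X2 = u2 ∧
      (enc X1 X2 X3 i u1 u2 u3 / X3 / X2) % X1 = u1 ∧
      enc X1 X2 X3 i u1 u2 u3 / X3 / X2 / X1 = i := by
  unfold enc
  obtain ⟨a1, a2⟩ := dig (q := (i * X1 + u1) * X2 + u2) h3
  obtain ⟨b1, b2⟩ := dig (q := i * X1 + u1) h2
  obtain ⟨c1, c2⟩ := dig (q := i) h1
  rw [a1, a2, b1, b2, c1, c2]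
  exact ⟨rfl, rfl, rfl, rfl⟩

theorem enc_lt {X1 X2 X3 i u1 u2 u3 I : ℕ} (h1 : u1 < X1) (h2 : u2 < X2) (h3 : u3 < X3)
    (hi : i < I) : enc X1 X2 X3 i u1 u2 u3 < I * (X1 * X2 * X3) := by
  unfold enc
  have e1 : i * X1 + u1 < I * X1 := by nlinarith
  have e2 : (i * X1 + u1) * X2 + u2 < (I * X1) * X2 := by nlinarith
  have e3 : ((i * X1 + u1) * X2 + u2) * X3 + u3 < (I * X1) * X2 * X3 := by nlinarith
  calc ((i * X1 + u1) * X2 + u2) * X3 + u3 < (I * X1) * X2 * X3 := e3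
    _ = I * (X1 * X2 * X3) := by ring

/-- the code -/
def code (hf : 0 < f) : Code n K f where
  i r := r / (8 * f) / (12 * f ^ 2) / (8 * f ^ 3)
  u1 r := (r / (8 * f) / (12 * f ^ 2)) % (8 * f ^ 3)
  u2 r := (r / (8 * f)) % (12 * f ^ 2)
  u3 r := r % (8 * f)
  l c := c / f
  k c := c % f + 1
  inj := by
    intro r s h1 h2 h3 h4
    apply Fin.ext
    have e1 : (r : ℕ) / (8 * f) / (12 * f ^ 2) = s / (8 * f) / (12 * f ^ 2) := by
      rw [← Nat.div_add_mod ((r : ℕ) / (8 * f) / (12 * f ^ 2)) (8 * f ^ 3), h1, h2,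
        Nat.div_add_mod]
    have e2 : (r : ℕ) / (8 * f) = s / (8 * f) := by
      rw [← Nat.div_add_mod ((r : ℕ) / (8 * f)) (12 * f ^ 2), e1, h3, Nat.div_add_mod]
    rw [← Nat.div_add_mod (r : ℕ) (8 * f), e2, h4, Nat.div_add_mod]
  injk := by
    intro c d h1 h2
    apply Fin.ext
    have h3 : (c : ℕ) % f = d % f := by omega
    rw [← Nat.div_add_mod (c : ℕ) f, h1, h3, Nat.div_add_mod]
  kpos c := by omega
  kle c := by
    have := Nat.mod_lt (c : ℕ) hf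
    omega
  i_lt r := lt_of_le_of_lt ((Nat.div_le_self _ _).trans ((Nat.div_le_self _ _).trans
    (Nat.div_le_self _ _))) r.2
  u1_lt r := lt_of_le_of_lt ((Nat.mod_le _ _).trans ((Nat.div_le_self _ _).trans
    (Nat.div_le_self _ _))) r.2
  u2_lt r := lt_of_le_of_lt ((Nat.mod_le _ _).trans (Nat.div_le_self _ _)) r.2
  u3_lt r := lt_of_le_of_lt (Nat.mod_le _ _) r.2
  l_lt c := lt_of_le_of_lt (Nat.div_le_self _ _) c.2

/-- the index type -/
abbrev Ix : Type := ℕ × ℕ × ℕ × ℕ × ℕ × (Σ _ : ℕ, ℕ)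

/-- the index set -/
def ixs (f I L : ℕ) : Finset Ix :=
  range (I - L) ×ˢ range (4 * f ^ 3) ×ˢ range (6 * f ^ 2) ×ˢ range (4 * f) ×ˢ range L ×ˢ
    ((range f).sigma fun b => range b)

theorem card_ixs (f I L : ℕ) : (ixs f I L).card =
    (I - L) * (4 * f ^ 3 * (6 * f ^ 2 * (4 * f * (L * (f * (f - 1) / 2))))) := by
  unfold ixs
  rw [card_product, card_product, card_product, card_product, card_product, card_sigma]
  simp only [card_range]
  rw [Finset.sum_range_id]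

/-- the source of a tuple -/
def rr (f L : ℕ) (t : Ix) : ℕ :=
  enc (8 * f ^ 3) (12 * f ^ 2) (8 * f) (L + t.1) t.2.1 t.2.2.1 t.2.2.2.1

/-- the sink of a tuple -/
def ss (f L : ℕ) (t : Ix) : ℕ :=
  enc (8 * f ^ 3) (12 * f ^ 2) (8 * f) (L + t.1 - t.2.2.2.2.1)
    (t.2.1 + 2 * ((t.2.2.2.2.2.2 + 1) + (t.2.2.2.2.2.1 + 1)) *
      ((t.2.2.2.2.2.2 + 1) * (t.2.2.2.2.2.1 + 1)))
    (t.2.2.1 + ((t.2.2.2.2.2.2 + 1) + (t.2.2.2.2.2.1 + 1)) ^ 2 +
      2 * ((t.2.2.2.2.2.2 + 1) * (t.2.2.2.2.2.1 + 1)))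
    (t.2.2.2.1 + 2 * ((t.2.2.2.2.2.2 + 1) + (t.2.2.2.2.2.1 + 1)))

/-- the columns -/
def cc1 (f : ℕ) (t : Ix) : ℕ := t.2.2.2.2.1 * f + t.2.2.2.2.2.2

/-- the columns -/
def cc2 (f : ℕ) (t : Ix) : ℕ := t.2.2.2.2.1 * f + t.2.2.2.2.2.1

theorem poly_bounds {f a b : ℕ} (hab : a < b) (hb : b < f) :
    2 * ((a + 1) + (b + 1)) * ((a + 1) * (b + 1)) ≤ 4 * f ^ 3 ∧
      ((a + 1) + (b + 1)) ^ 2 + 2 * ((a + 1) * (b + 1)) ≤ 6 * f ^ 2 ∧
      2 * ((a + 1) + (b + 1)) ≤ 4 * f := by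
  have h1 : a + 1 ≤ f := by omega
  have h2 : b + 1 ≤ f := by omega
  have h3 : (a + 1) * (b + 1) ≤ f * f := Nat.mul_le_mul h1 h2
  have h4 : (a + 1) + (b + 1) ≤ 2 * f := by omega
  refine ⟨?_, ?_, by omega⟩
  · calc 2 * ((a + 1) + (b + 1)) * ((a + 1) * (b + 1)) ≤ 2 * (2 * f) * (f * f) :=
          Nat.mul_le_mul (Nat.mul_le_mul_left _ h4) h3
      _ = 4 * f ^ 3 := by ring
  · calc ((a + 1) + (b + 1)) ^ 2 + 2 * ((a + 1) * (b + 1)) ≤ (2 * f) ^ 2 + 2 * (f * f) :=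
          Nat.add_le_add (Nat.pow_le_pow_left h4 2) (Nat.mul_le_mul_left _ h3)
      _ = 6 * f ^ 2 := by ring

end T6Aux

open T6Aux in
/-- T6: coordinates with many ties. -/
theorem T6 (hf : 2 ≤ f) (hfK : f ≤ K) (hn : 3072 * K * f ^ 5 ≤ n) :
    ∃ C : Code n K f, n * K * f ≤ 128 * C.ties.card := by
  classical
  have hf0 : 0 < f := by omega
  have hK0 : 0 < K := by omega
  have hn0 : 0 < n := by
    have : 0 < 3072 * K * f ^ 5 := by positivity
    omega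
  have : NeZero n := ⟨hn0.ne'⟩
  have : NeZero K := ⟨hK0.ne'⟩
  refine ⟨code hf0, ?_⟩
  set N0 := 768 * f ^ 6 with hN0
  have hN0pos : 0 < N0 := by positivity
  set I := n / N0 with hI
  set L := K / f with hL
  have hIn : I * N0 ≤ n := Nat.div_mul_le_self _ _
  have hIn' : n < (I + 1) * N0 := by
    rw [mul_comm]
    exact Nat.lt_mul_div_succ n hN0pos
  have hLK : L * f ≤ K := Nat.div_mul_le_self _ _
  have hLK' : K < (L + 1) * f := by
    rw [mul_comm]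
    exact Nat.lt_mul_div_succ K hf0
  have hL1 : 1 ≤ L := by
    rw [hL, Nat.one_le_div_iff hf0]
    exact hfK
  have hXXX : 8 * f ^ 3 * (12 * f ^ 2) * (8 * f) = N0 := by rw [hN0]; ring
  -- the main facts on a tuple
  have key : ∀ t ∈ ixs f I L, rr f L t < n ∧ ss f L t < n ∧ cc1 f t < K ∧ cc2 f t < K ∧
      cc1 f t < cc2 f t := by
    rintro ⟨i, u1, u2, u3, l, ⟨b, a⟩⟩ ht
    simp only [ixs, mem_product, mem_range, mem_sigma] at ht
    obtain ⟨hi, hu1, hu2, hu3, hl, hb, ha⟩ := ht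
    obtain ⟨p1, p2, p3⟩ := poly_bounds ha hb
    simp only [rr, ss, cc1, cc2]
    refine ⟨?_, ?_, ?_, ?_, by omega⟩
    · have := enc_lt (X1 := 8 * f ^ 3) (X2 := 12 * f ^ 2) (X3 := 8 * f) (i := L + i) (u1 := u1)
        (u2 := u2) (u3 := u3) (I := I) (by omega) (by omega) (by omega) (by omega)
      rw [hXXX] at this
      omega
    · have := enc_lt (X1 := 8 * f ^ 3) (X2 := 12 * f ^ 2) (X3 := 8 * f) (i := L + i - l)
        (u1 := u1 + 2 * ((a + 1) + (b + 1)) * ((a + 1) * (b + 1)))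
        (u2 := u2 + ((a + 1) + (b + 1)) ^ 2 + 2 * ((a + 1) * (b + 1)))
        (u3 := u3 + 2 * ((a + 1) + (b + 1))) (I := I) (by omega) (by omega) (by omega)
        (by omega)
      rw [hXXX] at this
      omega
    · have : (l + 1) * f ≤ L * f := Nat.mul_le_mul_right _ hl
      have e : (l + 1) * f = l * f + f := by ring
      omega
    · have : (l + 1) * f ≤ L * f := Nat.mul_le_mul_right _ hl
      have e : (l + 1) * f = l * f + f := by ring
      omega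
  have hcard : (ixs f I L).card ≤ (code (n := n) (K := K) hf0).ties.card := by
    apply Finset.card_le_card_of_injOn
      (fun t => ((Fin.ofNat n (rr f L t), Fin.ofNat n (ss f L t)),
        (Fin.ofNat K (cc1 f t), Fin.ofNat K (cc2 f t))))
    · intro t ht
      obtain ⟨k1, k2, k3, k4, k5⟩ := key t ht
      rw [Finset.mem_coe, Code.ties, mem_filter]
      refine ⟨mem_univ _, ?_⟩
      have v1 : ((Fin.ofNat n (rr f L t) : Fin n) : ℕ) = rr f L t := by
        simp [Fin.ofNat, Nat.mod_eq_of_lt k1]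
      have v2 : ((Fin.ofNat n (ss f L t) : Fin n) : ℕ) = ss f L t := by
        simp [Fin.ofNat, Nat.mod_eq_of_lt k2]
      have v3 : ((Fin.ofNat K (cc1 f t) : Fin K) : ℕ) = cc1 f t := by
        simp [Fin.ofNat, Nat.mod_eq_of_lt k3]
      have v4 : ((Fin.ofNat K (cc2 f t) : Fin K) : ℕ) = cc2 f t := by
        simp [Fin.ofNat, Nat.mod_eq_of_lt k4]
      obtain ⟨i, u1, u2, u3, l, ⟨b, a⟩⟩ := t
      have ht' := ht
      simp only [Finset.mem_coe, ixs, mem_product, mem_range, mem_sigma] at ht'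
      obtain ⟨hi, hu1, hu2, hu3, hl, hb, ha⟩ := ht'
      obtain ⟨p1, p2, p3⟩ := poly_bounds ha hb
      obtain ⟨r1, r2, r3, r4⟩ := enc_digits (X1 := 8 * f ^ 3) (X2 := 12 * f ^ 2) (X3 := 8 * f)
        (i := L + i) (u1 := u1) (u2 := u2) (u3 := u3) (by omega) (by omega) (by omega)
      obtain ⟨s1, s2, s3, s4⟩ := enc_digits (X1 := 8 * f ^ 3) (X2 := 12 * f ^ 2) (X3 := 8 * f)
        (i := L + i - l)
        (u1 := u1 + 2 * ((a + 1) + (b + 1)) * ((a + 1) * (b + 1)))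
        (u2 := u2 + ((a + 1) + (b + 1)) ^ 2 + 2 * ((a + 1) * (b + 1)))
        (u3 := u3 + 2 * ((a + 1) + (b + 1))) (by omega) (by omega) (by omega)
      obtain ⟨c1, c2⟩ := dig (q := l) (u := a) (X := f) (by omega)
      obtain ⟨d1, d2⟩ := dig (q := l) (u := b) (X := f) (by omega)
      unfold Code.Tie
      simp only [code]
      rw [Fin.lt_def, v1, v2, v3, v4]
      simp only [rr, ss, cc1, cc2] at k5 ⊢
      rw [r1, r2, r3, r4, s1, s2, s3, s4, c1, c2, d1, d2]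
      refine ⟨k5, rfl, by omega, rfl, rfl, rfl⟩
    · intro t ht t' ht' heq
      obtain ⟨k1, k2, k3, k4, k5⟩ := key t ht
      obtain ⟨k1', k2', k3', k4', k5'⟩ := key t' ht'
      simp only [Prod.mk.injEq, Fin.ext_iff, Fin.ofNat] at heq
      obtain ⟨⟨e1, -⟩, e3, e4⟩ := heq
      rw [Nat.mod_eq_of_lt k1, Nat.mod_eq_of_lt k1'] at e1
      rw [Nat.mod_eq_of_lt k3, Nat.mod_eq_of_lt k3'] at e3
      rw [Nat.mod_eq_of_lt k4, Nat.mod_eq_of_lt k4'] at e4
      obtain ⟨i, u1, u2, u3, l, ⟨b, a⟩⟩ := t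
      obtain ⟨i', u1', u2', u3', l', ⟨b', a'⟩⟩ := t'
      simp only [Finset.mem_coe, ixs, mem_product, mem_range, mem_sigma] at ht ht'
      obtain ⟨hi, hu1, hu2, hu3, hl, hb, ha⟩ := ht
      obtain ⟨hi', hu1', hu2', hu3', hl', hb', ha'⟩ := ht'
      simp only [rr, cc1, cc2] at e1 e3 e4
      obtain ⟨r1, r2, r3, r4⟩ := enc_digits (X1 := 8 * f ^ 3) (X2 := 12 * f ^ 2) (X3 := 8 * f)
        (i := L + i) (u1 := u1) (u2 := u2) (u3 := u3) (by omega) (by omega) (by omega)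
      obtain ⟨s1, s2, s3, s4⟩ := enc_digits (X1 := 8 * f ^ 3) (X2 := 12 * f ^ 2) (X3 := 8 * f)
        (i := L + i') (u1 := u1') (u2 := u2') (u3 := u3') (by omega) (by omega) (by omega)
      rw [e1] at r1 r2 r3 r4
      obtain ⟨c1, c2⟩ := dig (q := l) (u := a) (X := f) (by omega)
      obtain ⟨c1', c2'⟩ := dig (q := l') (u := a') (X := f) (by omega)
      obtain ⟨d1, d2⟩ := dig (q := l) (u := b) (X := f) (by omega)
      obtain ⟨d1', d2'⟩ := dig (q := l') (u := b') (X := f) (by omega)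
      rw [e3] at c1 c2
      rw [e4] at d1 d2
      have f1 : i = i' := by omega
      have f2 : u1 = u1' := r3.symm.trans s3
      have f3 : u2 = u2' := r2.symm.trans s2
      have f4 : u3 = u3' := r1.symm.trans s1
      have f5 : l = l' := c2.symm.trans c2'
      have f6 : a = a' := c1.symm.trans c1'
      have f7 : b = b' := d1.symm.trans d1'
      subst f1 f2 f3 f4 f5 f6 f7
      rfl
  -- numerics
  rw [card_ixs] at hcard
  have hP2 : f ^ 2 ≤ 4 * (f * (f - 1) / 2) := by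
    have hev : 2 ∣ f * (f - 1) := (Nat.even_mul_pred_self f).two_dvd
    obtain ⟨w, hw⟩ := hev
    rw [hw, Nat.mul_div_cancel_left _ (by norm_num)]
    obtain ⟨g, rfl⟩ : ∃ g, f = g + 2 := ⟨f - 2, by omega⟩
    have : g + 2 - 1 = g + 1 := by omega
    rw [this] at hw
    nlinarith
  have hLL : K ≤ 2 * f * L := by
    have : (L + 1) * f ≤ 2 * L * f := by nlinarith
    nlinarith
  have h3072 : 4 * (K * N0) ≤ n * f := by
    rw [hN0]
    calc 4 * (K * (768 * f ^ 6)) = 3072 * K * f ^ 5 * f := by ring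
      _ ≤ n * f := Nat.mul_le_mul_right _ hn
  have hIL : n ≤ 2 * N0 * (I - L) := by
    -- `L N0 ≤ n / 4`, `N0 ≤ n / 4`
    have a1 : 4 * (L * N0) ≤ n := by
      have : 4 * (L * N0) * f ≤ n * f := by
        calc 4 * (L * N0) * f = 4 * ((L * f) * N0) := by ring
          _ ≤ 4 * (K * N0) := by gcongr
          _ ≤ n * f := h3072
      exact Nat.le_of_mul_le_mul_right this hf0
    have a2 : 4 * N0 ≤ n := by
      calc 4 * N0 = 4 * (1 * N0) := by ring
        _ ≤ 4 * (L * N0) := by gcongr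
        _ ≤ n := a1
    have a3 : (I - L) * N0 = I * N0 - L * N0 := Nat.sub_mul _ _ _
    have a4 : (I + 1) * N0 = I * N0 + N0 := by ring
    have a5 : 2 * N0 * (I - L) = 2 * ((I - L) * N0) := by ring
    rw [a5, a3]
    omega
  have hprod : n * K * f ^ 2 ≤ (2 * N0 * (I - L)) * (2 * f * L) * (4 * (f * (f - 1) / 2)) :=
    Nat.mul_le_mul (Nat.mul_le_mul hIL hLL) hP2
  have hfin : (n * K * f) * f ≤
      (128 * ((I - L) * (4 * f ^ 3 * (6 * f ^ 2 * (4 * f * (L * (f * (f - 1) / 2))))))) * f := by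
    calc (n * K * f) * f = n * K * f ^ 2 := by ring
      _ ≤ _ := hprod
      _ = _ := by rw [hN0]; ring
  have := Nat.le_of_mul_le_mul_right hfin hf0
  exact this.trans (Nat.mul_le_mul_left _ hcard)

end Pool.Agent.H463R2.DT
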